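import Mathlib

/-! Statements (Props) of project LW (MP_e56372_nt): sparse levels in the Littlewood problem. -/

set_option autoImplicit false
open Finset Filter Topology
open scoped ENNReal

namespace Pool.Agent.W811.LW

/-- integer vectors `(q, p1, p2)` respectively `(A, B, C)` -/
abbrev V3 := ℤ × ℤ × ℤ

/-- cross product -/
def cr (v w : V3) : V3 :=
  (v.2.1 * w.2.2 - v.2.2 * w.2.1, v.2.2 * w.1 - v.1 * w.2.2, v.1 * w.2.1 - v.2.1 * w.1)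

def smul3 (k : ℤ) (v : V3) : V3 := (k * v.1, k * v.2.1, k * v.2.2)

noncomputable def aV (D : ℝ) (t : ℕ) (β : ℝ) (v : V3) : ℝ := D ^ t * ((v.1 : ℝ) * β - (v.2.2 : ℝ))
noncomputable def bV (D : ℝ) (j t : ℕ) (v : V3) : ℝ := (v.1 : ℝ) / D ^ (2 * j + t)
noncomputable def aW (D : ℝ) (j t : ℕ) (α β : ℝ) (w : V3) : ℝ :=
  D ^ (2 * j + t) * ((w.1 : ℝ) + (w.2.1 : ℝ) * α + (w.2.2 : ℝ) * β)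
noncomputable def bW (D : ℝ) (t : ℕ) (w : V3) : ℝ := (w.2.2 : ℝ) / D ^ t

def famV (D : ℝ) (α : ℝ) (m : ℕ) : Set V3 :=
  {v | v.1 ≠ 0 ∧ |(v.1 : ℝ) * α - (v.2.1 : ℝ)| * D ^ (2 * m) ≤ 1}
def famW (D : ℝ) (m : ℕ) : Set V3 :=
  {w | w.2.1 ≠ 0 ∧ w.2.2 ≠ 0 ∧ |(w.2.1 : ℝ)| ≤ D ^ (2 * m)}

noncomputable def NN (a b : V3 → ℝ) (v : V3) : ℝ := max |a v| |b v|
/-- the infimum of `max |a| |b|` over the family `S` -/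
noncomputable def inN (S : Set V3) (a b : V3 → ℝ) : ℝ := sInf (NN a b '' S)

noncomputable def yV (D α : ℝ) (j t : ℕ) (β : ℝ) (m : ℕ) : ℝ :=
  inN (famV D α m) (aV D t β) (bV D j t)
noncomputable def yW (D α : ℝ) (j t : ℕ) (β : ℝ) (m : ℕ) : ℝ :=
  inN (famW D m) (aW D j t α β) (bW D t)

/-- inverse square root -/
noncomputable def rs (y : ℝ) : ℝ := (Real.sqrt y)⁻¹

/-- weights -/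
noncomputable def et (G : ℝ) (i : ℤ) : ℝ := if 0 ≤ i then G ^ i else G ^ (3 * i)

/-- `α` is badly approximable with constant `c0` -/
def BAD (c0 α : ℝ) : Prop := ∀ q p : ℤ, 0 < q → c0 ≤ (q : ℝ) * |(q : ℝ) * α - (p : ℝ)|

/-- `β` is badly approximable up to the scale `n` -/
def BA (D : ℝ) (n : ℕ) (β : ℝ) : Prop :=
  ∀ q p : ℤ, 0 < q → 1 / (2 * D) ≤ max ((q : ℝ) / D ^ n) (D ^ n * |(q : ℝ) * β - (p : ℝ)|)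

noncomputable def FV (G : ℕ) (α : ℝ) (j t : ℕ) (β : ℝ) : ℝ≥0∞ :=
  ∑' m : ℕ, ENNReal.ofReal (et G ((m : ℤ) - (j : ℤ)) * rs (yV ((G : ℝ) ^ 4) α j t β m))
noncomputable def FW (G : ℕ) (α : ℝ) (j t : ℕ) (β : ℝ) : ℝ≥0∞ :=
  ∑' m : ℕ, ENNReal.ofReal (et G ((j : ℤ) - (m : ℤ)) * rs (yW ((G : ℝ) ^ 4) α j t β m))

/-- averaging lemma for one vector -/
def AVL : Prop := ∀ (D : ℕ) (P R a b : ℝ), 1 ≤ D → 1 ≤ P → 1 ≤ R → P * R = (D : ℝ) ^ 2 →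
  (a ≠ 0 ∨ b ≠ 0) →
  ∑ d ∈ range (D ^ 2), rs (max |P * (a + (d : ℝ) / (D : ℝ) ^ 2 * b)| |b / R|)
    ≤ (D : ℝ) ^ 2 * (16 * rs P * rs (max |a| |b|))

/-- dichotomy for one family of integer vectors -/
def ABS : Prop := ∀ (D : ℕ) (P R : ℝ) (S : Set V3) (a b : V3 → ℝ), 2 ≤ D → 1 ≤ P → 1 ≤ R →
  P * R = (D : ℝ) ^ 2 →
  (∀ (k : ℤ) (u : V3), a (smul3 k u) = k * a u) → (∀ (k : ℤ) (u : V3), b (smul3 k u) = k * b u) →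
  S.Nonempty → (∀ v ∈ S, v ≠ (0, 0, 0)) → (∀ (k : ℤ) (u : V3), smul3 k u ∈ S → u ∈ S) →
  0 < inN S a b →
  (∀ d : ℕ, d < D ^ 2 →
    0 < inN S (fun v => P * (a v + (d : ℝ) / (D : ℝ) ^ 2 * b v)) (fun v => b v / R) ∧
    inN S a b ≤ 2 * (D : ℝ) ^ 2 *
      inN S (fun v => P * (a v + (d : ℝ) / (D : ℝ) ^ 2 * b v)) (fun v => b v / R)) ∧
  ((∑ d ∈ range (D ^ 2),
      rs (inN S (fun v => P * (a v + (d : ℝ) / (D : ℝ) ^ 2 * b v)) (fun v => b v / R))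
      ≤ (D : ℝ) ^ 2 * (16 * rs P * rs (inN S a b))) ∨
    ∃ v ∈ S, ∃ w ∈ S, cr v w ≠ (0, 0, 0) ∧ NN a b v ≤ 8 * (D : ℝ) ^ 4 * inN S a b ∧
      NN a b w ≤ 8 * (D : ℝ) ^ 4 * inN S a b)

def POS : Prop := ∀ (D : ℕ) (α c0 β : ℝ) (j t m : ℕ), 2 ≤ D → 0 < c0 → BAD c0 α →
  (famV (D : ℝ) α m).Nonempty ∧ (famW (D : ℝ) m).Nonempty ∧
    0 < yV D α j t β m ∧ 0 < yW D α j t β m

def CLV1 : Prop := ∀ (D : ℕ) (c0 α β : ℝ) (j t m : ℕ), 2 ≤ D → 0 < c0 → BAD c0 α →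
  (∀ d : ℕ, d < D ^ 2 → 0 < yV D α j (t + 1) (β + (d : ℝ) / (D : ℝ) ^ (2 * (j + t) + 2)) m ∧
    yV D α j t β m ≤ 2 * (D : ℝ) ^ 2 *
      yV D α j (t + 1) (β + (d : ℝ) / (D : ℝ) ^ (2 * (j + t) + 2)) m) ∧
  ((∑ d ∈ range (D ^ 2), rs (yV D α j (t + 1) (β + (d : ℝ) / (D : ℝ) ^ (2 * (j + t) + 2)) m)
      ≤ (D : ℝ) ^ 2 * (16 * rs D * rs (yV D α j t β m))) ∨
    ∃ v ∈ famV (D : ℝ) α m, ∃ w ∈ famV (D : ℝ) α m, cr v w ≠ (0, 0, 0) ∧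
      NN (aV D t β) (bV D j t) v ≤ 8 * (D : ℝ) ^ 4 * yV D α j t β m ∧
      NN (aV D t β) (bV D j t) w ≤ 8 * (D : ℝ) ^ 4 * yV D α j t β m)

def CLV0 : Prop := ∀ (D : ℕ) (c0 α β : ℝ) (j m : ℕ), 2 ≤ D → 0 < c0 → BAD c0 α →
  (∀ d : ℕ, d < D ^ 2 → 0 < yV D α (j + 1) 0 (β + (d : ℝ) / (D : ℝ) ^ (2 * j + 2)) m ∧
    yV D α j 0 β m ≤ 2 * (D : ℝ) ^ 2 *
      yV D α (j + 1) 0 (β + (d : ℝ) / (D : ℝ) ^ (2 * j + 2)) m) ∧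
  ((∑ d ∈ range (D ^ 2), rs (yV D α (j + 1) 0 (β + (d : ℝ) / (D : ℝ) ^ (2 * j + 2)) m)
      ≤ (D : ℝ) ^ 2 * (16 * rs (yV D α j 0 β m))) ∨
    ∃ v ∈ famV (D : ℝ) α m, ∃ w ∈ famV (D : ℝ) α m, cr v w ≠ (0, 0, 0) ∧
      NN (aV D 0 β) (bV D j 0) v ≤ 8 * (D : ℝ) ^ 4 * yV D α j 0 β m ∧
      NN (aV D 0 β) (bV D j 0) w ≤ 8 * (D : ℝ) ^ 4 * yV D α j 0 β m)

def CLW1 : Prop := ∀ (D : ℕ) (c0 α β : ℝ) (j t m : ℕ), 2 ≤ D → 0 < c0 → BAD c0 α →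
  (∀ d : ℕ, d < D ^ 2 → 0 < yW D α j (t + 1) (β + (d : ℝ) / (D : ℝ) ^ (2 * (j + t) + 2)) m ∧
    yW D α j t β m ≤ 2 * (D : ℝ) ^ 2 *
      yW D α j (t + 1) (β + (d : ℝ) / (D : ℝ) ^ (2 * (j + t) + 2)) m) ∧
  ((∑ d ∈ range (D ^ 2), rs (yW D α j (t + 1) (β + (d : ℝ) / (D : ℝ) ^ (2 * (j + t) + 2)) m)
      ≤ (D : ℝ) ^ 2 * (16 * rs D * rs (yW D α j t β m))) ∨
    ∃ v ∈ famW (D : ℝ) m, ∃ w ∈ famW (D : ℝ) m, cr v w ≠ (0, 0, 0) ∧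
      NN (aW D j t α β) (bW D t) v ≤ 8 * (D : ℝ) ^ 4 * yW D α j t β m ∧
      NN (aW D j t α β) (bW D t) w ≤ 8 * (D : ℝ) ^ 4 * yW D α j t β m)

def CLW0 : Prop := ∀ (D : ℕ) (c0 α β : ℝ) (j m : ℕ), 2 ≤ D → 0 < c0 → BAD c0 α →
  (∀ d : ℕ, d < D ^ 2 → 0 < yW D α (j + 1) 0 (β + (d : ℝ) / (D : ℝ) ^ (2 * j + 2)) m ∧
    yW D α j 0 β m ≤ 2 * (D : ℝ) ^ 2 *
      yW D α (j + 1) 0 (β + (d : ℝ) / (D : ℝ) ^ (2 * j + 2)) m) ∧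
  ((∑ d ∈ range (D ^ 2), rs (yW D α (j + 1) 0 (β + (d : ℝ) / (D : ℝ) ^ (2 * j + 2)) m)
      ≤ (D : ℝ) ^ 2 * (16 * rs ((D : ℝ) ^ 2) * rs (yW D α j 0 β m))) ∨
    ∃ v ∈ famW (D : ℝ) m, ∃ w ∈ famW (D : ℝ) m, cr v w ≠ (0, 0, 0) ∧
      NN (aW D j 0 α β) (bW D 0) v ≤ 8 * (D : ℝ) ^ 4 * yW D α j 0 β m ∧
      NN (aW D j 0 α β) (bW D 0) w ≤ 8 * (D : ℝ) ^ 4 * yW D α j 0 β m)

/-- two independent short vectors give a short dual vector -/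
def DVL : Prop := ∀ (D : ℕ) (c0 α β : ℝ) (j t m : ℕ) (y : ℝ) (v w : V3), 2 ≤ D → 0 < c0 →
  c0 ≤ 1 → BAD c0 α → BA D (j + t) β → 0 < y → v ∈ famV (D : ℝ) α m → w ∈ famV (D : ℝ) α m →
  cr v w ≠ (0, 0, 0) →
  NN (aV D t β) (bV D j t) v ≤ 8 * (D : ℝ) ^ 4 * y →
  NN (aV D t β) (bV D j t) w ≤ 8 * (D : ℝ) ^ 4 * y →
  c0 / (1024 * (D : ℝ) ^ 10) ≤ (D : ℝ) ^ (2 * j) / (D : ℝ) ^ (2 * m) * y ^ 2 ∨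
  ∃ m' : ℕ, (D : ℝ) ^ (2 * m') / (D : ℝ) ^ (2 * j) ≤ 128 * (D : ℝ) ^ 10 * y ^ 2 ∧
    yW D α j t β m' ≤ 16 * (D : ℝ) ^ 4 * ((D : ℝ) ^ (2 * j) / (D : ℝ) ^ (2 * m)) * y

/-- two independent short dual vectors give a short vector -/
def DWL : Prop := ∀ (D : ℕ) (c0 α β : ℝ) (j t m : ℕ) (y : ℝ) (v w : V3), 2 ≤ D → 0 < c0 →
  c0 ≤ 1 → 0 < y → v ∈ famW (D : ℝ) m → w ∈ famW (D : ℝ) m → cr v w ≠ (0, 0, 0) →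
  NN (aW D j t α β) (bW D t) v ≤ 8 * (D : ℝ) ^ 4 * y →
  NN (aW D j t α β) (bW D t) w ≤ 8 * (D : ℝ) ^ 4 * y →
  c0 / (1024 * (D : ℝ) ^ 10) ≤ (D : ℝ) ^ (2 * m) / (D : ℝ) ^ (2 * j) * y ^ 2 ∨
  ∃ m' : ℕ, (D : ℝ) ^ (2 * j) / (D : ℝ) ^ (2 * m') ≤ 128 * (D : ℝ) ^ 10 * y ^ 2 ∧
    yV D α j t β m' ≤ 16 * (D : ℝ) ^ 4 * ((D : ℝ) ^ (2 * m) / (D : ℝ) ^ (2 * j)) * y

/-- summation over the classes -/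
def KERN : Prop := ∀ (G : ℕ) (c5 C1 C2 E : ℝ), 1000 ≤ G → 0 < c5 → 1 ≤ C1 → 1 ≤ C2 → 1 ≤ E →
  ∃ M : ℝ, 0 ≤ M ∧ ∀ (idx idx' : ℕ → ℤ) (y z T : ℕ → ℝ), Function.Injective idx →
  (∀ m, 0 < y m) → (∀ m, 0 < z m) →
  (∀ m, T m ≤ (1 / 48) * (et G (idx m) * rs (y m)) ∨
    (T m ≤ E * (et G (idx m) * rs (y m)) ∧
      (c5 ≤ ((G : ℝ) ^ 4) ^ (-2 * idx m) * (y m) ^ 2 ∨
        ∃ m', ((G : ℝ) ^ 4) ^ (-2 * idx' m') ≤ C1 * (y m) ^ 2 ∧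
          z m' ≤ C2 * ((G : ℝ) ^ 4) ^ (-2 * idx m) * y m))) →
  ∑' m, ENNReal.ofReal (T m) ≤ (1 / 48) * ∑' m, ENNReal.ofReal (et G (idx m) * rs (y m)) +
    (1 / 48) * ∑' m, ENNReal.ofReal (et G (idx' m) * rs (z m)) + ENNReal.ofReal M

/-- one step inequalities -/
def SV1 : Prop := ∀ (G : ℕ) (c0 : ℝ), 1000 ≤ G → 0 < c0 → c0 ≤ 1 → ∃ M : ℝ, 0 ≤ M ∧
  ∀ (α β : ℝ) (j t : ℕ), BAD c0 α → BA ((G : ℝ) ^ 4) (j + t) β →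
  ∑ d ∈ range ((G ^ 4) ^ 2), FV G α j (t + 1) (β + (d : ℝ) / ((G : ℝ) ^ 4) ^ (2 * (j + t) + 2))
    ≤ (((G ^ 4) ^ 2 : ℕ) : ℝ≥0∞) *
      ((1 / 48) * FV G α j t β + (1 / 48) * FW G α j t β + ENNReal.ofReal M)

def SW1 : Prop := ∀ (G : ℕ) (c0 : ℝ), 1000 ≤ G → 0 < c0 → c0 ≤ 1 → ∃ M : ℝ, 0 ≤ M ∧
  ∀ (α β : ℝ) (j t : ℕ), BAD c0 α → BA ((G : ℝ) ^ 4) (j + t) β →
  ∑ d ∈ range ((G ^ 4) ^ 2), FW G α j (t + 1) (β + (d : ℝ) / ((G : ℝ) ^ 4) ^ (2 * (j + t) + 2))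
    ≤ (((G ^ 4) ^ 2 : ℕ) : ℝ≥0∞) *
      ((1 / 48) * FV G α j t β + (1 / 48) * FW G α j t β + ENNReal.ofReal M)

def SV0 : Prop := ∀ (G : ℕ) (c0 : ℝ), 1000 ≤ G → 0 < c0 → c0 ≤ 1 → ∃ M : ℝ, 0 ≤ M ∧
  ∀ (α β : ℝ) (j : ℕ), BAD c0 α → BA ((G : ℝ) ^ 4) j β →
  ∑ d ∈ range ((G ^ 4) ^ 2), FV G α (j + 1) 0 (β + (d : ℝ) / ((G : ℝ) ^ 4) ^ (2 * j + 2))
    ≤ (((G ^ 4) ^ 2 : ℕ) : ℝ≥0∞) *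
      ((1 / 48) * FV G α j 0 β + (1 / 48) * FW G α j 0 β + ENNReal.ofReal M)

def SW0 : Prop := ∀ (G : ℕ) (c0 : ℝ), 1000 ≤ G → 0 < c0 → c0 ≤ 1 → ∃ M : ℝ, 0 ≤ M ∧
  ∀ (α β : ℝ) (j : ℕ), BAD c0 α → BA ((G : ℝ) ^ 4) j β →
  ∑ d ∈ range ((G ^ 4) ^ 2), FW G α (j + 1) 0 (β + (d : ℝ) / ((G : ℝ) ^ 4) ^ (2 * j + 2))
    ≤ (((G ^ 4) ^ 2 : ℕ) : ℝ≥0∞) *
      ((1 / 48) * FV G α j 0 β + (1 / 48) * FW G α j 0 β + ENNReal.ofReal M)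

/-- few digits destroy `BA` -/
def BAK : Prop := ∀ (D n : ℕ) (β : ℝ), 8 ≤ D → BA D n β → ∃ s : Finset ℕ, s.card ≤ 2 * D + 4 ∧
  ∀ d : ℕ, d < D ^ 2 → d ∉ s → BA D (n + 1) (β + (d : ℝ) / (D : ℝ) ^ (2 * n + 2))

def INIT : Prop := ∀ (G : ℕ) (c0 α : ℝ), 1000 ≤ G → 0 < c0 → BAD c0 α →
  FV G α 0 0 0 < ⊤ ∧ FW G α 0 0 0 < ⊤

def WGT : Prop := ∀ (L : ℕ → ℕ) (K : ℕ), StrictMono L → (∀ k, 2 * L k < L (k + K)) →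
  ∃ w : ℕ → ℝ, (∀ l, 0 ≤ w l) ∧ (∀ l, w (l + 1) ≤ 2 * w l) ∧ (∀ k, 1 ≤ w (L k)) ∧
    ∃ M : ℝ, ∀ n : ℕ, ∑ j ∈ range (n + 1), w (n + j) ≤ M

/-- the digits -/
def INDC : Prop := ∀ (L : ℕ → ℕ) (K G : ℕ) (c0 α : ℝ), StrictMono L →
  (∀ k, 2 * L k < L (k + K)) → 1000 ≤ G → 0 < c0 → c0 ≤ 1 → BAD c0 α →
  ∃ (b : ℕ → ℝ) (β M : ℝ), 0 ≤ M ∧ (∀ n, |β - b n| ≤ 1 / ((G : ℝ) ^ 4) ^ (2 * n)) ∧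
    ∀ j t k : ℕ, L k = 2 * j + t → FV G α j t (b (j + t)) ≤ ENNReal.ofReal M

def SQ2 : Prop := BAD (1 / 4) (Real.sqrt 2)

def FINC : Prop := ∀ (L : ℕ → ℕ) (K : ℕ), StrictMono L → (∀ k, 2 * L k < L (k + K)) →
  ∃ ξ ζ D c4 c : ℝ, 1 < D ∧ 0 < c4 ∧ 0 < c ∧ ∀ (k : ℕ) (q p p' : ℤ), 0 < q →
    (q : ℝ) ≤ c4 * D ^ (L k) → |(q : ℝ) * ξ - p| ≤ 1 →
    c ≤ D ^ (L k) * (|(q : ℝ) * ξ - p| * |(q : ℝ) * ζ - p'|)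

def LSEQ : Prop := ∀ ε : ℝ, 0 < ε → ∃ (L : ℕ → ℕ) (K : ℕ), StrictMono L ∧
  (∀ k, 2 * L k < L (k + K)) ∧
  Tendsto (fun k => (L (k + 1) : ℝ) / (L k : ℝ)) atTop (𝓝 (1 + ε))

def LAST : Prop := ∀ ε : ℝ, 0 < ε → ∃ ξ ζ : ℝ, ∃ Q : ℕ → ℝ,
  Tendsto Q atTop atTop ∧
  Tendsto (fun k => Real.log (Q (k + 1)) / Real.log (Q k)) atTop (𝓝 (1 + ε)) ∧
  ∃ c : ℝ, 0 < c ∧ ∀ k, c ≤ Q k * ⨅ q : {q : ℕ // 0 < q ∧ (q : ℝ) ≤ Q k},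
    |((q.1 : ℝ) * ξ) - (round ((q.1 : ℝ) * ξ) : ℝ)| *
    |((q.1 : ℝ) * ζ) - (round ((q.1 : ℝ) * ζ) : ℝ)|

end Pool.Agent.W811.LW
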