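import Pool.Agent.W811.LW.Stm

/-! Project LW, second round: levels with slowly growing density. -/

set_option autoImplicit false
open Finset Filter Topology
open scoped ENNReal

namespace Pool.Agent.W811.LW

/-- at most `κ n` of the levels lie in `[n, 2n]` -/
def CNT (L : ℕ → ℕ) (κ : ℕ → ℝ) : Prop :=
  ∀ n : ℕ, ∀ s : Finset ℕ, (∀ k ∈ s, n ≤ L k ∧ L k ≤ 2 * n) → (s.card : ℝ) ≤ κ n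

def WGTB : Prop := ∀ (L : ℕ → ℕ) (κ : ℕ → ℝ), StrictMono L → Monotone κ → (∀ n, 1 ≤ κ n) →
  CNT L κ →
  ∃ w : ℕ → ℝ, (∀ l, 0 ≤ w l) ∧ (∀ l, w (l + 1) ≤ 2 * w l) ∧ (∀ k, 1 ≤ w (L k)) ∧
    ∀ n : ℕ, ∑ j ∈ range (n + 1), w (n + j) ≤ 8 * κ n

def INDB : Prop := ∀ (L : ℕ → ℕ) (κ : ℕ → ℝ) (G : ℕ) (c0 α : ℝ), StrictMono L →
  Monotone κ → (∀ n, 1 ≤ κ n) → CNT L κ → 1000 ≤ G → 0 < c0 → c0 ≤ 1 → BAD c0 α →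
  ∃ (b : ℕ → ℝ) (β M : ℝ), 0 ≤ M ∧ (∀ n, |β - b n| ≤ 1 / ((G : ℝ) ^ 4) ^ (2 * n)) ∧
    ∀ j t k : ℕ, L k = 2 * j + t → FV G α j t (b (j + t)) ≤ ENNReal.ofReal (M * κ (L k))

def FINB : Prop := ∀ (L : ℕ → ℕ) (κ : ℕ → ℝ), StrictMono L → Monotone κ → (∀ n, 1 ≤ κ n) →
  CNT L κ →
  ∃ ξ ζ D c : ℝ, 1 < D ∧ 0 < c ∧ ∀ (k : ℕ) (q p p' : ℤ), 0 < q →
    (q : ℝ) ≤ c / κ (L k) ^ 2 * D ^ (L k) → |(q : ℝ) * ξ - p| ≤ 1 →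
    c / κ (L k) ^ 2 ≤ D ^ (L k) * (|(q : ℝ) * ξ - p| * |(q : ℝ) * ζ - p'|)

/-- levels with ratio tending to `1` and slowly growing density -/
def LSEQB : Prop := ∀ ψ : ℕ → ℝ, Tendsto ψ atTop atTop → ∃ (L : ℕ → ℕ) (κ : ℕ → ℝ),
  StrictMono L ∧ Monotone κ ∧ (∀ n, 1 ≤ κ n) ∧ CNT L κ ∧
  Tendsto (fun k => (L (k + 1) : ℝ) / (L k : ℝ)) atTop (𝓝 1) ∧
  Tendsto (fun k => Real.log (κ (L k)) / (L k : ℝ)) atTop (𝓝 0) ∧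
  ∀ C : ℝ, ∀ k0 : ℕ, ∀ᶠ k in atTop, C * κ (L (k + k0)) ^ 4 ≤ ψ k

def LASTB : Prop := ∀ ψ : ℕ → ℝ, Tendsto ψ atTop atTop → ∃ ξ ζ : ℝ, ∃ Q : ℕ → ℝ,
  Tendsto Q atTop atTop ∧
  Tendsto (fun k => Real.log (Q (k + 1)) / Real.log (Q k)) atTop (𝓝 1) ∧
  ∀ᶠ k in atTop, 1 / ψ k ≤ Q k * ⨅ q : {q : ℕ // 0 < q ∧ (q : ℝ) ≤ Q k},
    |((q.1 : ℝ) * ξ) - (round ((q.1 : ℝ) * ξ) : ℝ)| *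
    |((q.1 : ℝ) * ζ) - (round ((q.1 : ℝ) * ζ) : ℝ)|

end Pool.Agent.W811.LW
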