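import Pool.Agent.W740.LW.AVL
import Pool.Agent.W283.LW.ABS
import Pool.Agent.W297.LWPos
import Pool.Agent.W630.LW.CL
import Pool.Agent.W814.LW.Dvl
import Pool.Agent.W195.LW.DWL
import Pool.Agent.W292.LW.Kern
import Pool.Agent.W480.LW.SV1
import Pool.Agent.W581.LW.SW1
import Pool.Agent.W423.LW.SV0
import Pool.Agent.W651.LW.Sw0
import Pool.Agent.W51.LW.Bak
import Pool.Agent.W402.LW.Init
import Pool.Agent.W513.LW.Wgt
import Pool.Agent.W502.LW.Ind
import Pool.Agent.W464.LW.SQ2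
import Pool.Agent.W862.LW.Fin
import Pool.Agent.W556.LW.Lseq
import Pool.Agent.W764.LW.Last
import Pool.Agent.W811.LW.Stm2

set_option autoImplicit false

namespace Pool.Agent.W811.LW

theorem tAVL : AVL := Pool.Agent.W740.LW.avl
theorem tABS : ABS := Pool.Agent.W283.LW.abs_ tAVL
theorem tPOS : POS := Pool.Agent.W297.LWPos.pos
theorem tCLV1 : CLV1 := Pool.Agent.W630.LW.clv1 tABS tPOS
theorem tCLV0 : CLV0 := Pool.Agent.W630.LW.clv0 tABS tPOS
theorem tCLW1 : CLW1 := Pool.Agent.W630.LW.clw1 tABS tPOS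
theorem tCLW0 : CLW0 := Pool.Agent.W630.LW.clw0 tABS tPOS
theorem tDVL : DVL := Pool.Agent.W814.LW.dvl
theorem tDWL : DWL := Pool.Agent.W195.LW.dwl
theorem tKERN : KERN := Pool.Agent.W292.LW.kern
theorem tSV1 : SV1 := Pool.Agent.W480.LW.sv1 tCLV1 tPOS tDVL tKERN
theorem tSW1 : SW1 := Pool.Agent.W581.LW.sw1 tCLW1 tPOS tDWL tKERN
theorem tSV0 : SV0 := Pool.Agent.W423.LW.sv0 tCLV0 tPOS tDVL tKERN
theorem tSW0 : SW0 := Pool.Agent.W651.LW.sw0 tCLW0 tPOS tDWL tKERN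
theorem tBAK : BAK := Pool.Agent.W51.LW.bak
theorem tINIT : INIT := Pool.Agent.W402.LW.Init.init
theorem tWGT : WGT := Pool.Agent.W513.LW.wgt
theorem tSQ2 : SQ2 := Pool.Agent.W464.LW.sq2
theorem tLSEQ : LSEQ := Pool.Agent.W556.LW.lseq
theorem tINDC : INDC := Pool.Agent.W502.LW.ind tSV1 tSV0 tSW1 tSW0 tBAK tINIT tWGT
theorem tFINC : FINC := Pool.Agent.W862.LWFin.fin_ tINDC tSQ2
theorem tLAST : LAST := Pool.Agent.W764.LW.last tFINC tLSEQ

end Pool.Agent.W811.LW
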