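import Pool.Agent.W811.LW.Asm
import Pool.Agent.W487.LW.Ind
import Pool.Agent.W664.LW.Finb
import Pool.Agent.W599.LW.Lseqb
import Pool.Agent.W865.LW.Lastb
import Pool.Agent.W854.LW.Wgtb

set_option autoImplicit false

namespace Pool.Agent.W811.LW

theorem tWGTB : WGTB := Pool.Agent.W854.LW.wgtb
theorem tINDB : INDB := Pool.Agent.W487.LW.indb tSV1 tSV0 tSW1 tSW0 tBAK tINIT tWGTB
theorem tFINB : FINB := Pool.Agent.W664.LW.finb tINDB tSQ2
theorem tLSEQB : LSEQB := Pool.Agent.W599.LW.lseqb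
theorem tLASTB : LASTB := Pool.Agent.W865.LW.lastb tFINB tLSEQB

end Pool.Agent.W811.LW
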